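import Pool.Agent.MP_491344_nt.Reps

namespace Pool.Agent.Results.MP_491344_nt.ContextFreeObstruction

open Filter Topology
open Pool.Agent.MP_491344_nt (PolyBd posVal rep Exch exists_exch reps_asymptotic)

/-- The language of the base-`b` expansions (lists of digits, least significant digit first, no
superfluous zeros) of the elements of `A`. -/
def expansions (b : ℕ) (A : Set ℕ) : Language ℕ := {x | ∃ n ∈ A, x = Nat.digits b n}

/-- For some `δ > 0`, `r_A(n) ≥ n^δ` for infinitely many `n`. -/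
def PowerRepresentations (A : Set ℕ) : Prop :=
  ∃ δ : ℝ, 0 < δ ∧ ∀ N₀ : ℕ, ∃ n : ℕ, N₀ ≤ n ∧ (n : ℝ) ^ δ ≤ (rep A n : ℝ)

/-- `B` is the set of values of a context-free language `L` in some positional system: the value
`f x` of a word `x ∈ L` equals, up to an error polynomial in the length of `x`, the sum of the
weights `w |x| i x_i` of its letters `x_i` at the positions `i`; only polynomially many words of
the same length have the same value; and the length of `x` is comparable to `log (f x)`. -/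
def HasCFDescription (B : Set ℕ) : Prop :=
  ∃ (T : Type) (L : Language T) (w : ℕ → ℕ → T → ℝ) (f : List T → ℕ) (K d μ : ℕ) (lam : ℝ),
    L.IsContextFree ∧
    (∀ m, m ∈ B ↔ ∃ x ∈ L, f x = m) ∧
    (∀ x ∈ L, |(f x : ℝ) - posVal w x| ≤ ((K * (x.length + 1) ^ d : ℕ) : ℝ)) ∧
    (∀ n m, {x : List T | x ∈ L ∧ x.length = n ∧ f x = m}.encard ≤
      ((K * (n + 1) ^ d : ℕ) : ℕ∞)) ∧
    (∀ x ∈ L, f x ≤ K * μ ^ x.length) ∧
    1 < lam ∧ (∀ x ∈ L, lam ^ x.length ≤ K * ((f x : ℝ) + 1))

theorem general {T : Type} (A : Set ℕ) (L : Language T) (hL : L.IsContextFree)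
    (w : ℕ → ℕ → T → ℝ) (f : List T → ℕ) (K d μ : ℕ) (hf : ∀ x ∈ L, f x ∈ A)
    (herr : ∀ x ∈ L, |(f x : ℝ) - posVal w x| ≤ ((K * (x.length + 1) ^ d : ℕ) : ℝ))
    (hfib : ∀ n a, {x : List T | x ∈ L ∧ x.length = n ∧ f x = a}.encard ≤
      ((K * (n + 1) ^ d : ℕ) : ℕ∞))
    (hup : ∀ x ∈ L, f x ≤ K * μ ^ x.length) :
    PolyBd List.length (fun x => x ∈ L) ∨ PowerRepresentations A := by
  by_cases h : PolyBd List.length (fun x => x ∈ L)
  · exact Or.inl h
  · obtain ⟨E⟩ := exists_exch hL h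
    exact Or.inr (reps_asymptotic E w f K d μ hf herr hfib hup)

theorem val_digits (b : ℕ) (x : List ℕ) :
    posVal (fun _ i t => ((t * b ^ i : ℕ) : ℝ)) x = ((Nat.ofDigits b x : ℕ) : ℝ) := by
  rw [Pool.Agent.MP_491344_nt.posVal_eq]
  have key : ∀ (x : List ℕ) (p : ℕ), Pool.Agent.MP_491344_nt.pv
      (fun i t => ((t * b ^ i : ℕ) : ℝ)) p x = (b : ℝ) ^ p * ((Nat.ofDigits b x : ℕ) : ℝ) := by
    intro x
    induction x with
    | nil => intro p; simp [Pool.Agent.MP_491344_nt.pv]
    | cons t x ih =>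
      intro p
      simp only [Pool.Agent.MP_491344_nt.pv, ih, Nat.ofDigits_cons]
      push_cast
      ring
  rw [key x 0]
  simp

theorem base_description (b : ℕ) (hb : 2 ≤ b) (B : Set ℕ)
    (hB : (expansions b B).IsContextFree) : HasCFDescription B := by
  refine ⟨ℕ, expansions b B, fun _ i t => ((t * b ^ i : ℕ) : ℝ), fun x => Nat.ofDigits b x,
    b, 0, b, b, hB, ?_, ?_, ?_, ?_, by exact_mod_cast hb, ?_⟩
  · intro m
    constructor
    · intro hm
      exact ⟨Nat.digits b m, ⟨m, hm, rfl⟩, Nat.ofDigits_digits b m⟩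
    · rintro ⟨x, ⟨n, hn, rfl⟩, h⟩
      have h : Nat.ofDigits b (Nat.digits b n) = m := h
      rw [Nat.ofDigits_digits] at h
      rwa [← h]
  · intro x _
    rw [val_digits]
    simp
  · intro n a
    have h1 : {x : List ℕ | x ∈ expansions b B ∧ x.length = n ∧ Nat.ofDigits b x = a} ⊆
        {Nat.digits b a} := by
      rintro x ⟨⟨k, -, rfl⟩, -, h⟩
      rw [Nat.ofDigits_digits] at h
      rw [h]
      rfl
    calc _ ≤ ({Nat.digits b a} : Set (List ℕ)).encard := Set.encard_le_encard h1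
      _ = ((1 : ℕ) : ℕ∞) := Set.encard_singleton _
      _ ≤ ((b * (n + 1) ^ 0 : ℕ) : ℕ∞) := by
        have : 1 ≤ b * (n + 1) ^ 0 := by simp; omega
        exact_mod_cast this
  · rintro x ⟨n, hn, rfl⟩
    have h1 := Nat.ofDigits_lt_base_pow_length (b := b) (l := Nat.digits b n) (by omega)
      (fun x hx => Nat.digits_lt_base (by omega) hx)
    calc Nat.ofDigits b (Nat.digits b n) ≤ b ^ (Nat.digits b n).length := h1.le
      _ ≤ b * b ^ (Nat.digits b n).length := Nat.le_mul_of_pos_left _ (by omega)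
  · rintro x ⟨n, hn, rfl⟩
    show (b : ℝ) ^ (Nat.digits b n).length ≤
      (b : ℝ) * (((Nat.ofDigits b (Nat.digits b n) : ℕ) : ℝ) + 1)
    rw [Nat.ofDigits_digits]
    rcases Nat.eq_zero_or_pos n with h0 | h0
    · rw [h0]
      have : (1 : ℝ) ≤ b := by exact_mod_cast (by omega : 1 ≤ b)
      simpa using this
    · rw [Nat.length_digits b n (by omega) (by omega), pow_succ]
      have h1 : b ^ Nat.log b n ≤ n := Nat.pow_log_le_self b (by omega)
      have h2 : ((b : ℝ)) ^ Nat.log b n ≤ n := by exact_mod_cast h1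
      have h3 : (0 : ℝ) < b := by exact_mod_cast (by omega : 0 < b)
      nlinarith

/-- Either the set has at most polylogarithmically many elements, or there are many
representations. -/
theorem dichotomy (A B : Set ℕ) (hBA : B ⊆ A) (hB : HasCFDescription B) :
    (∃ C e : ℕ, ∀ N : ℕ, 1 ≤ N → ((B ∩ Set.Icc 1 N).ncard : ℝ) ≤ C * (1 + Real.log N) ^ e) ∨
      PowerRepresentations A := by
  obtain ⟨T, L, w, f, K, d, μ, lam, hL, hBf, herr, hfib, hup, hlam, hlow⟩ := hB
  rcases general A L hL w f K d μ (fun x hx => hBA ((hBf _).mpr ⟨x, hx, rfl⟩)) herr hfib hup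
    with ⟨C, e, hF⟩ | h
  · left
    have hloglam : 0 < Real.log lam := Real.log_pos hlam
    -- constant
    obtain ⟨q, hq⟩ := exists_nat_ge (1 + (1 + Real.log (K + 1)) / Real.log lam)
    refine ⟨C * q ^ e, e, fun N hN => ?_⟩
    have hNr : (1 : ℝ) ≤ N := by exact_mod_cast hN
    have hlogN : 0 ≤ Real.log N := Real.log_nonneg hNr
    set n : ℕ := ⌊Real.log (K * ((N : ℝ) + 1) + 1) / Real.log lam⌋₊ with hn
    obtain ⟨F, hF1, hF2⟩ := hF n
    have hsub : B ∩ Set.Icc 1 N ⊆ f '' (F : Set (List T)) := by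
      rintro m ⟨hm, hm1, hm2⟩
      obtain ⟨x, hx, rfl⟩ := (hBf m).mp hm
      refine ⟨x, hF1 x hx ?_, rfl⟩
      rw [hn]
      refine Nat.le_floor ?_
      rw [le_div_iff₀ hloglam, ← Real.log_pow]
      refine Real.log_le_log (by positivity) ?_
      have h1 := hlow x hx
      have h2 : (f x : ℝ) ≤ N := by exact_mod_cast hm2
      have h3 : (0 : ℝ) ≤ K := Nat.cast_nonneg K
      nlinarith
    have h1 : (B ∩ Set.Icc 1 N).ncard ≤ C * (n + 1) ^ e := by
      calc (B ∩ Set.Icc 1 N).ncard ≤ (f '' (F : Set (List T))).ncard :=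
            Set.ncard_le_ncard hsub ((Finset.finite_toSet F).image _)
        _ ≤ (F : Set (List T)).ncard := Set.ncard_image_le (Finset.finite_toSet F)
        _ = F.card := Set.ncard_coe_finset F
        _ ≤ C * (n + 1) ^ e := hF2
    have hK0 : (0 : ℝ) ≤ K := Nat.cast_nonneg K
    have h2 : (n : ℝ) ≤ Real.log (K * ((N : ℝ) + 1) + 1) / Real.log lam :=
      Nat.floor_le (div_nonneg (Real.log_nonneg (by nlinarith)) hloglam.le)
    have h3 : Real.log (K * ((N : ℝ) + 1) + 1) ≤ (1 + Real.log (K + 1)) * (1 + Real.log N) := by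
      have h4 : (K : ℝ) * ((N : ℝ) + 1) + 1 ≤ (K + 1) * (2 * N) := by nlinarith
      have h5 := Real.log_le_log (by positivity) h4
      rw [Real.log_mul (by positivity) (by positivity),
        Real.log_mul (by norm_num) (by positivity)] at h5
      have h6 : Real.log 2 ≤ 1 := by have := Real.log_two_lt_d9; linarith
      have h7 : 0 ≤ Real.log ((K : ℝ) + 1) := Real.log_nonneg (by linarith)
      nlinarith
    have h4 : (n : ℝ) + 1 ≤ q * (1 + Real.log N) := by
      have h5 : (n : ℝ) ≤ (1 + Real.log (K + 1)) / Real.log lam * (1 + Real.log N) := by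
        calc (n : ℝ) ≤ Real.log (K * ((N : ℝ) + 1) + 1) / Real.log lam := h2
          _ ≤ ((1 + Real.log (K + 1)) * (1 + Real.log N)) / Real.log lam := by gcongr
          _ = _ := by ring
      nlinarith
    calc ((B ∩ Set.Icc 1 N).ncard : ℝ) ≤ C * ((n : ℝ) + 1) ^ e := by exact_mod_cast h1
      _ ≤ C * (q * (1 + Real.log N)) ^ e := by gcongr
      _ = ((C * q ^ e : ℕ) : ℝ) * (1 + Real.log N) ^ e := by rw [mul_pow]; push_cast; ring
  · exact Or.inr h

/-- Context-free descriptions and the strong Erdős–Turán statement. -/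
theorem result :
    (∀ b : ℕ, 2 ≤ b → ∀ B : Set ℕ, (expansions b B).IsContextFree → HasCFDescription B) ∧
    (∀ A B : Set ℕ, B ⊆ A → HasCFDescription B →
      (∃ C e : ℕ, ∀ N : ℕ, 1 ≤ N →
        ((B ∩ Set.Icc 1 N).ncard : ℝ) ≤ C * (1 + Real.log N) ^ e) ∨ PowerRepresentations A) :=
  ⟨base_description, dichotomy⟩

end Pool.Agent.Results.MP_491344_nt.ContextFreeObstruction
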