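import Pool.Agent.OneTape.Below

set_option autoImplicit false

namespace Pool.Agent.Results.MP_491344_nt.OneTapeMachines

open Pool.Agent.OneTape (Machine AcceptsNat)

/-- If a nondeterministic one-tape machine accepts, among the numbers below `b ^ n`, only elements
of `A`, and at least `b ^ (α n)` of them within `T` steps, then some number has at least
`exp (c n / √(n + T log (q + 1)))` representations as a sum of two elements of `A`. -/
theorem result (b : ℕ) (α : ℝ) (hb : 2 ≤ b) (hα : 0 < α) :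
    ∃ c : ℝ, 0 < c ∧ ∃ n₀ : ℕ, ∀ n : ℕ, n₀ ≤ n → ∀ (A : Set ℕ) (Q Γ : Type) (_ : Fintype Q)
      (M : Machine Q Γ) (blank : Γ) (letter : ℕ → Γ) (ord : List ℕ → List ℕ) (T : ℕ),
      (ord = id ∨ ord = List.reverse) →
      (∀ a t, a < b ^ n → AcceptsNat M blank letter ord b t a → a ∈ A) →
      (b : ℝ) ^ (α * n) ≤ ({a | a < b ^ n ∧
        ∃ t ≤ T, AcceptsNat M blank letter ord b t a}.ncard : ℝ) →
      ∃ m : ℕ, m < 2 * b ^ n ∧
        Real.exp (c * n / √(n + T * Real.log ((Fintype.card Q : ℝ) + 1))) ≤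
          ({p : ℕ × ℕ | p.1 + p.2 = m ∧ p.1 ∈ A ∧ p.2 ∈ A}.ncard : ℝ) :=
  Pool.Agent.OneTape.below b hb α hα

end Pool.Agent.Results.MP_491344_nt.OneTapeMachines
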