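import Pool.Agent.RPert.Noise

set_option autoImplicit false

namespace Pool.Agent.Results.MP_491344_nt.RandomNoise

open Filter MeasureTheory ProbabilityTheory

/-- Random noise of unbounded size destroys bounded representation functions.

`H` is the size of the noise, `H n = O(n)`; `h ≤ H` is nondecreasing, tends to infinity and is
`n ^ o(1)`. If `#(A ∩ [1, N]) * √(h N) / √N → ∞` and the `e a` are independent and uniform on
`{0, ..., H a}`, then almost surely the ordered representation function of `{a + e a : a ∈ A}` is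
unbounded. -/
theorem result (H h : ℕ → ℕ) (hmono : Monotone h) (hinf : Tendsto h atTop atTop)
    (hsub : ∀ ε : ℝ, 0 < ε → ∀ᶠ n : ℕ in atTop, (h n : ℝ) ≤ (n : ℝ) ^ ε) (hH : ∀ n, h n ≤ H n)
    (hC : ∃ C : ℕ, ∀ᶠ n : ℕ in atTop, H n ≤ C * n) (A : Set ℕ)
    (hA : Tendsto (fun N : ℕ => ((A ∩ Set.Icc 1 N).ncard : ℝ) * Real.sqrt (h N) / Real.sqrt N)
      atTop atTop)
    (Ω : Type) [MeasurableSpace Ω] (P : Measure Ω) [IsProbabilityMeasure P] (e : ℕ → Ω → ℕ)
    (hmeas : ∀ a, Measurable (e a)) (hind : iIndepFun e P)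
    (hunif : ∀ a x, x ≤ H a → P {ω | e a ω = x} = ((H a : ENNReal) + 1)⁻¹) :
    ∀ᵐ ω ∂P, ∀ K : ℕ, ∃ n : ℕ, K ≤ Set.ncard {p : ℕ × ℕ |
      (∃ a ∈ A, p.1 = a + e a ω) ∧ (∃ b ∈ A, p.2 = b + e b ω) ∧ p.1 + p.2 = n} := by
  obtain ⟨C, hC⟩ := hC
  refine RPert.noise H h C hmono hinf hsub hH hC A hA P e ⟨hmeas, hind, fun a x hx => ?_⟩
  rw [hunif a x (Nat.lt_succ_iff.1 hx)]
  push_cast
  rfl

end Pool.Agent.Results.MP_491344_nt.RandomNoise
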