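import Pool.Agent.B2v.Fin

set_option autoImplicit false

namespace Pool.Agent.Results.MP_491344_nt.VariableDensity

/-- For every `δ` in `(0, 1/2)` there is a constant `C` such that the following holds for every
non-increasing density exponent `ε : ℕ → (0, 1/16)` for which `ε N * log N` is non-decreasing and
`ε N ≥ (log N) ^ (-1/2 + δ)` for all large `N` (constant functions are allowed): there is a set `A`
of natural numbers with `#{(a,b) ∈ A × A : a + b = n} ≤ exp (C log (1/ε n) / log log (1/ε n))`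
for every `n ≥ 2`, that is `ε n ^ (-o(1))` as `ε n → 0`, while `A` has at least
`N ^ (1/2 - ε N)` elements in `[1, N]` for all large `N`. -/
theorem result : ∀ δ : ℝ, 0 < δ → δ < 1 / 2 → ∃ C : ℝ, 0 < C ∧ ∀ ε : ℕ → ℝ,
    (∀ N : ℕ, 2 ≤ N → 0 < ε N) → (∀ N : ℕ, 2 ≤ N → ε N < 1 / 16) →
    (∀ M N : ℕ, 2 ≤ M → M ≤ N → ε N ≤ ε M) →
    (∀ M N : ℕ, 2 ≤ M → M ≤ N → ε M * Real.log M ≤ ε N * Real.log N) →
    (∃ N1 : ℕ, ∀ N : ℕ, N1 ≤ N → Real.log N ^ (-(1 / 2) + δ) ≤ ε N) →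
    ∃ A : Set ℕ,
      (∀ n : ℕ, 2 ≤ n →
        (Set.ncard {x : ℕ × ℕ | x.1 ∈ A ∧ x.2 ∈ A ∧ x.1 + x.2 = n} : ℝ) ≤
          Real.exp (C * Real.log (1 / ε n) / Real.log (Real.log (1 / ε n)))) ∧
      ∃ N0 : ℕ, ∀ N : ℕ, N0 ≤ N →
        (N : ℝ) ^ (1 / 2 - ε N) ≤ ((A ∩ Set.Icc 1 N).ncard : ℝ) := by
  intro δ hδ hδ2
  obtain ⟨C, hC, h⟩ := Pool.Agent.B2v.main hδ hδ2
  refine ⟨C, hC, fun ε h1 h2 h3 h4 h5 => ?_⟩
  obtain ⟨A, hA, hA2⟩ := h ε ⟨h1, h2, h3, h4, h5⟩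
  refine ⟨A, fun n hn => ?_, hA2⟩
  rw [mul_div_assoc]
  exact hA n hn

end Pool.Agent.Results.MP_491344_nt.VariableDensity
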